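import Pool.Agent.U194.TS.Thin
import Pool.Agent.N918.MS.Seq

/-!
# Thin sets and random and metric sequences of integers

Thin sets of all number fields, with one exceptional set, from the count of the integers in a thin set of rational numbers.
-/

set_option autoImplicit false

open Polynomial Filter MeasureTheory Topology
open Pool.Agent.N918.MS (AlmostAlways RandomAndMetric randomAndMetric)
open Pool.Agent.TH783.CE (Thin)

namespace Pool.Agent.U194.TS

lemma ncard_cover {ι : Type} (J : Finset ι) (s : ι → Set ℕ) : (⋃ i ∈ J, s i).ncard ≤ ∑ i ∈ J, (s i).ncard := by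
  classical
  induction J using Finset.induction_on with
  | empty => simp
  | insert a t ha ih =>
    rw [Finset.set_biUnion_insert, Finset.sum_insert ha]
    exact (Set.ncard_union_le _ _).trans (Nat.add_le_add_left ih _)

/-- a bound for the number of the exceptions for a property which follows from finitely many properties -/
lemma count_cover {ι : Type} {Good : ι → ℤ → Prop} (J : Finset ι) {G : ℤ → Prop}
    (hJ : ∀ k, (∀ i ∈ J, Good i k) → G k) (x : ℕ → ℤ)
    (h : ∀ i, ∀ U : ℕ, ∀ᶠ N : ℕ in atTop, ({n : ℕ | n < N ∧ ¬ Good i (x n)}.ncard : ℝ) ≤ N / Real.log N ^ U) (U : ℕ) :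
    ∀ᶠ N : ℕ in atTop, ({n : ℕ | n < N ∧ ¬ G (x n)}.ncard : ℝ) ≤ N / Real.log N ^ U := by
  classical
  have h1 : ∀ᶠ N : ℕ in atTop, ∀ i ∈ J, ({n : ℕ | n < N ∧ ¬ Good i (x n)}.ncard : ℝ) ≤ N / Real.log N ^ (U + 1) :=
    (Finset.eventually_all J).2 fun i _ => h i (U + 1)
  have h2 : ∀ᶠ N : ℕ in atTop, (J.card : ℝ) + 1 ≤ Real.log N :=
    (Real.tendsto_log_atTop.comp (tendsto_natCast_atTop_atTop (R := ℝ))).eventually_ge_atTop _
  filter_upwards [h1, h2] with N a1 a2
  have hfin : ∀ i, {n : ℕ | n < N ∧ ¬ Good i (x n)}.Finite := fun i =>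
    (Set.finite_Iio N).subset fun n hn => hn.1
  have h3 : {n : ℕ | n < N ∧ ¬ G (x n)} ⊆ ⋃ i ∈ J, {n : ℕ | n < N ∧ ¬ Good i (x n)} := by
    rintro n ⟨hn1, hn2⟩
    by_contra hcon
    apply hn2
    refine hJ _ fun i hi => ?_
    by_contra hg
    exact hcon (Set.mem_biUnion hi ⟨hn1, hg⟩)
  have h4 : ({n : ℕ | n < N ∧ ¬ G (x n)}.ncard : ℝ) ≤ ∑ i ∈ J, ({n : ℕ | n < N ∧ ¬ Good i (x n)}.ncard : ℝ) := by
    have b1 := Set.ncard_le_ncard h3 (J.finite_toSet.biUnion fun i _ => hfin i)
    have b2 := ncard_cover J fun i => {n : ℕ | n < N ∧ ¬ Good i (x n)}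
    have b3 := b1.trans b2
    exact_mod_cast b3
  have h5 : ∑ i ∈ J, ({n : ℕ | n < N ∧ ¬ Good i (x n)}.ncard : ℝ) ≤ J.card * (N / Real.log N ^ (U + 1)) := by
    rw [← nsmul_eq_mul]
    exact Finset.sum_le_card_nsmul _ _ _ a1
  have hl : 0 < Real.log N := by
    have : (0 : ℝ) ≤ J.card := Nat.cast_nonneg _
    linarith
  refine h4.trans (h5.trans ?_)
  have h6 : (J.card : ℝ) * (N / Real.log N ^ (U + 1)) = (J.card / Real.log N) * (N / Real.log N ^ U) := by
    rw [pow_succ]
    field_simp
  rw [h6]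
  have h7 : (J.card : ℝ) / Real.log N ≤ 1 := (div_le_one hl).2 (by linarith)
  calc (J.card / Real.log N) * (N / Real.log N ^ U) ≤ 1 * (N / Real.log N ^ U) :=
        mul_le_mul_of_nonneg_right h7 (by positivity)
    _ = _ := one_mul _

/-- **Families of properties each of which follows from finitely many properties of a countable family.** -/
theorem randomAndMetric_of_cover {ι ι' : Type} {Good : ι → ℤ → Prop} (R : RandomAndMetric Good) {Good' : ι' → ℤ → Prop}
    (h : ∀ i', ∃ J : Finset ι, ∀ k, (∀ i ∈ J, Good i k) → Good' i' k) : RandomAndMetric Good' where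
  random Ω _ μ _ X C δ hδ hm hX hs := by
    filter_upwards [R.random Ω μ X C δ hδ hm hX hs] with ω hω i'
    obtain ⟨J, hJ⟩ := h i'
    filter_upwards [(Finset.eventually_all J).2 fun i _ => hω i] with n hn
    exact hJ _ hn
  density Ω _ μ _ X C δ hδ hm hX hs := by
    filter_upwards [R.density Ω μ X C δ hδ hm hX hs] with ω hω i'
    obtain ⟨J, hJ⟩ := h i'
    exact count_cover J hJ (fun n => X n ω) hω
  linear d a δ hδ ha := by
    filter_upwards [R.linear d a δ hδ ha] with ω hω i'
    obtain ⟨J, hJ⟩ := h i'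
    filter_upwards [(Finset.eventually_all J).2 fun i _ => hω i] with n hn
    exact hJ _ hn
  steep A B c δ f hc hδ hf := by
    filter_upwards [R.steep A B c δ f hc hδ hf] with x hx hx' i'
    obtain ⟨J, hJ⟩ := h i'
    filter_upwards [(Finset.eventually_all J).2 fun i _ => hx hx' i] with n hn
    exact hJ _ hn
  power ξ hξ := by
    filter_upwards [R.power ξ hξ] with x hx hx' i'
    obtain ⟨J, hJ⟩ := h i'
    filter_upwards [(Finset.eventually_all J).2 fun i _ => hx hx' i] with n hn
    exact hJ _ hn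
  separated a δ hδ ha := by
    filter_upwards [R.separated a δ hδ ha] with α hα i'
    obtain ⟨J, hJ⟩ := h i'
    exact count_cover J hJ (fun n => ⌊a n * α⌋) hα

/-- The set of the rational integers in a thin subset of a number field. -/
def ThinTrace (A : Set ℤ) : Prop :=
  ∃ (K : Type) (_ : Field K) (_ : NumberField K) (D : Set K), Thin D ∧ A = {k : ℤ | (k : K) ∈ D}

/-- **Random and metric sequences of integers miss all thin sets of all number fields.** -/
theorem randomAndMetric_thin : RandomAndMetric (fun (A : {A : Set ℤ // ThinTrace A}) (k : ℤ) => k ∉ A.1) := by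
  have R : RandomAndMetric Good := randomAndMetric Good fun i U => by
    obtain ⟨X₀, h⟩ := good_few i U
    refine ⟨X₀, fun X hX => le_trans (le_of_eq ?_) (h X hX)⟩
    congr 2
    ext k
    simp only [Set.mem_ofPred_eq, Set.mem_Icc, abs_le]
  refine randomAndMetric_of_cover R ?_
  rintro ⟨A, K, _, _, D, hD, rfl⟩
  obtain ⟨J, hJ⟩ := good_cover hD
  exact ⟨J, fun k hk => hJ k hk⟩

end Pool.Agent.U194.TS
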