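import Pool.Agent.U194.TS.Metric
import Pool.Agent.Results.MP_a59382_lc.AlmostAllIntegers

/-!
# Existential formulas which imply the pole relation fail at random integers and at the terms of metric sequences

The pole relation `R_K(a, b)` of the problem holds for all rational integers `a` and all `b ∈ K`. The starting result
`AlmostAllIntegers` of this page shows that the formulas of several kinds (finite disjunctions, with parameters in `K`) which imply the
pole relation for some `b` fail at the terms of the sequences of integers which are equidistributed modulo all integers, outside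
of a set of density zero of the indices.

Here are random integers of ANY dependence, and sequences of arbitrary growth and arithmetic nature given by a real parameter, with
no exceptional indices, or with a saving of all powers of the logarithm. The sets of the rational integers `k` for which `Φ(k, b)`
holds, `Φ` a formula of the kinds of `AlmostAllIntegers` over ANY number field `K` such that `Φ(a, b)` implies the pole relation for
all `a`, are sets of the rational integers in a thin subset of `K` (`ThinTrace`). For ALL these sets at once, outside of ONE event
(set) of probability (measure) zero,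

* for random integers `X_n`, of any dependence, with `P (X_n = k) ≤ C / (|k| + 1)`, almost surely only finitely many `X_n` are in the
  set, if `|X_n| ≥ exp (n ^ δ)` outside of events with a convergent sum of probabilities; at most `M / (log M) ^ U` of the `X_n`,
  `n < M`, are in the set, for all `U`, if `∑_{n < M} P (|X_n| < M ^ δ) ≤ C M ^ (1 - δ)`;
* for all linear forms `a_n` in `d` variables with norms at least `exp (n ^ δ)`, for almost all vectors `α`, only finitely
  many `⌊a_n (α)⌋` are in the set; the same for `⌊h_n (x)⌋`, for almost all `x` in an interval on which `|h_n'| ≥ c |h_n|` and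
  `|h_n| ≥ exp (n ^ δ)`; the same for `⌊ξ x ^ n⌋`, for all `ξ ≠ 0` and almost all `x > 1`;
* for ANY sequence of real numbers `a_n` with mutual distances at least `δ > 0`, in any order, and almost all real `α` at most
  `M / (log M) ^ U` of the `⌊a_n α⌋`, `n < M`, are in the set, for all `U`.

Proof. The new ingredient is a bound `X / (log X) ^ U`, for all `U`, for the number of the integers `|k| ≤ X` in a thin set
(`U194/TS`), by the sieve of Turán: the primes modulo which a polynomial in two variables without a factor linear in the second has
many fibres without roots have positive lower density (`N455/HT`), and the sum of the densities of the products of `U + 2` of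
these primes is bounded from below. The tool for the sequences is `N918/MS`, for a countable family of exceptional sets; the integers
in a thin set of a number field are in finitely many sets of such a family.
-/

set_option autoImplicit false

namespace Pool.Agent.U194.TS.MetricSequences

open Pool.Agent.TH766.HP Pool.Agent.TH783.CE
open Pool.Agent.N918.MS (RandomAndMetric)
open Pool.Agent.U194.TS (ThinTrace)
open Pool.Agent.Results.MP_a59382_lc.CubicEquations (PoleRel)
open Pool.Agent.Results.MP_a59382_lc.AlmostAllIntegers (Formula Forms)
open Pool.Agent.R565.QR (Solvable)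

/-- **Formulas which imply the pole relation fail at random integers and along metric sequences.** -/
theorem result :
    -- the sets of the integers in thin sets of number fields
    RandomAndMetric (fun (A : {A : Set ℤ // ThinTrace A}) (k : ℤ) => k ∉ A.1) ∧
    -- formulas over number fields
    (∀ (K : Type) [Field K] [NumberField K] (Q : Set ℕ), Rich Q →
      ∀ (Φ : Formula K) (b : K), Φ.AdmissibleAt b → Φ.SoundAt Q b → ThinTrace {k : ℤ | Φ.Holds (k : K) b}) ∧
    -- formulas over the rational numbers
    (∀ Q : Set ℕ, Rich Q → ∀ (Φ : Formula ℚ) (Ψ : Forms) (b : ℚ),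
      Φ.AdmissibleAt b → Ψ.RankFiveAt b →
      (∀ a : ℚ, (Φ.Holds a b ∨ Ψ.Holds a b) → PoleRel ℚ Q a b) →
        ThinTrace {k : ℤ | Φ.Holds (k : ℚ) b ∨ Ψ.Holds (k : ℚ) b}) ∧
    -- the pole relation holds at all integers
    (∀ (K : Type) [Field K] [NumberField K] (Q : Set ℕ) (k : ℤ) (b : K), PoleRel K Q (k : K) b) ∧
    -- the primes `1` modulo `4`
    Rich {p | p % 4 = 1} := by
  have key : ∀ (K : Type) [Field K] [NumberField K] (Q : Set ℕ), Rich Q →
      ∀ (Φ : Formula K) (b : K), Φ.AdmissibleAt b → Φ.SoundAt Q b → Thin {a | Φ.Holds a b} := by
    intro K _ _ Q hQ Φ b hΦ hs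
    exact Pool.Agent.N455.PR.thin_main hQ hΦ.1.1 hΦ.1.2 b hΦ.2.1 hΦ.2.2 hs
  refine ⟨Pool.Agent.U194.TS.randomAndMetric_thin, ?_, ?_, fun K _ _ Q k b => Pool.Agent.N455.PR.poleRel_int Q k b, four⟩
  · intro K hK hN Q hQ Φ b hΦ hs
    exact ⟨K, hK, hN, _, key K Q hQ Φ b hΦ hs, rfl⟩
  · intro Q hQ Φ Ψ b hΦ hΨ hs
    have h1 := key ℚ Q hQ Φ b hΦ fun a ha => hs a (Or.inl ha)
    have h2 : {a | Ψ.Holds a b}.Finite := by
      have : {a | Ψ.Holds a b} = ⋃ i, {a | Solvable (Ψ.A i) a b} := by
        ext a
        simp [Forms.Holds]
      rw [this]
      exact Set.finite_iUnion fun i => Pool.Agent.N455.PR.fin_rank5 hQ (hΨ i).1 b (hΨ i).2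
        fun a ha => hs a (Or.inr ⟨i, ha⟩)
    exact ⟨ℚ, inferInstance, inferInstance, _, h1.union (Thin.of_finite h2), rfl⟩

end Pool.Agent.U194.TS.MetricSequences
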