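import Pool.Agent.U194.TS.Powers
import Pool.Agent.Results.MP_a59382_lc.AlmostAllIntegers

/-!
# Existential formulas which imply the pole relation fail at ALL integers near the powers of almost every real number

The pole relation `R_K(a, b)` of the problem holds for all rational integers `a` and all `b ∈ K`. Let `v_n ≥ 1` be a sequence of real
numbers with a finite exponent of convergence (for instance `v_n = n + 1` or `v_n = 3 ^ n`). We show that for almost every real
`α > 1` and all `A`, for all large `n`, ALL the integers `k` with `||k| - α ^ (v_n)| ≤ v_n ^ A` have the following properties: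

(a) `k` is not in `D`, for all number fields `K` and all thin sets `D ⊆ K`;

(b) `Φ(k, b)` fails, for all number fields `K`, all rich sets `Q` of primes, all `b ∈ K` and all formulas `Φ` of the kinds of the
starting result `AlmostAllIntegers` such that `Φ(a, b)` implies the pole relation for all `a`;

(c) the same over `ℚ` for the disjunctions with quadratic equations of rank at least five.

The starting result is about single terms of sequences which are equidistributed modulo all integers, outside of a set of
density zero of the indices; here are no exceptional indices, and the integers fill whole intervals of length `v_n ^ A`. The null set of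
the `α` does not depend on `K`, `D`, `Q`, `Φ`, `b` and `A`.

Proof. The number of the integers `|k| ≤ X` in a thin set is at most `X / (log X) ^ U`, for all `U` (`U194/TS`, sieve of Turán), and a
theorem of the starting library on the integers near the powers of almost every number (`R482/ST`); the integers
in a thin set of a number field are in finitely many sets of a countable family.
-/

set_option autoImplicit false

open Filter MeasureTheory

namespace Pool.Agent.U194.TS.NearPowers

open Pool.Agent.TH766.HP Pool.Agent.TH783.CE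
open Pool.Agent.Results.MP_a59382_lc.CubicEquations (PoleRel)
open Pool.Agent.Results.MP_a59382_lc.AlmostAllIntegers (Formula Forms)
open Pool.Agent.R565.QR (Solvable)

/-- For all large `n` ALL the integers `k` with `||k| - α ^ (v_n)| ≤ v_n ^ A` have the property `G`, for every `A`. -/
def NearPower (v : ℕ → ℝ) (α : ℝ) (G : ℤ → Prop) : Prop :=
  ∀ A : ℕ, ∀ᶠ n : ℕ in atTop, ∀ k : ℤ, |(|k| : ℝ) - α ^ (v n)| ≤ (v n) ^ A → G k

/-- **Formulas which imply the pole relation fail at all integers near the powers of almost every number.** -/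
theorem result :
    (∀ (v : ℕ → ℝ) (t : ℝ), (∀ n, 1 ≤ v n) → (Summable fun n => (v n) ^ (-t)) →
      ∃ E : Set ℝ, volume E = 0 ∧ ∀ α : ℝ, 1 < α → α ∉ E →
        -- thin sets
        (∀ (K : Type) [Field K] [NumberField K] (D : Set K), Thin D → NearPower v α fun k => (k : K) ∉ D) ∧
        -- formulas over number fields
        (∀ (K : Type) [Field K] [NumberField K] (Q : Set ℕ), Rich Q →
          ∀ (Φ : Formula K) (b : K), Φ.AdmissibleAt b → Φ.SoundAt Q b → NearPower v α fun k => ¬ Φ.Holds (k : K) b) ∧
        -- formulas over the rational numbers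
        (∀ Q : Set ℕ, Rich Q → ∀ (Φ : Formula ℚ) (Ψ : Forms) (b : ℚ),
          Φ.AdmissibleAt b → Ψ.RankFiveAt b →
          (∀ a : ℚ, (Φ.Holds a b ∨ Ψ.Holds a b) → PoleRel ℚ Q a b) →
            NearPower v α fun k => ¬ (Φ.Holds (k : ℚ) b ∨ Ψ.Holds (k : ℚ) b))) ∧
    -- the pole relation holds at all integers
    (∀ (K : Type) [Field K] [NumberField K] (Q : Set ℕ) (k : ℤ) (b : K), PoleRel K Q (k : K) b) ∧
    -- the primes `1` modulo `4`
    Rich {p | p % 4 = 1} := by
  refine ⟨?_, fun K _ _ Q k b => Pool.Agent.N455.PR.poleRel_int Q k b, four⟩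
  intro v t hv ht
  obtain ⟨E, e1, e3⟩ := Pool.Agent.U194.TS.powers_thin hv ht
  have hthin : ∀ α : ℝ, 1 < α → α ∉ E → ∀ (K : Type) [Field K] [NumberField K] (D : Set K), Thin D →
      NearPower v α fun k => (k : K) ∉ D := fun α h1 hα K _ _ D hD A => e3 α h1 hα K D hD A
  have key : ∀ (K : Type) [Field K] [NumberField K] (Q : Set ℕ), Rich Q →
      ∀ (Φ : Formula K) (b : K), Φ.AdmissibleAt b → Φ.SoundAt Q b → Thin {a | Φ.Holds a b} := by
    intro K _ _ Q hQ Φ b hΦ hs
    exact Pool.Agent.N455.PR.thin_main hQ hΦ.1.1 hΦ.1.2 b hΦ.2.1 hΦ.2.2 hs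
  refine ⟨E, e1, fun α h0 hα => ⟨hthin α h0 hα, ?_, ?_⟩⟩
  · intro K _ _ Q hQ Φ b hΦ hs
    exact hthin α h0 hα K _ (key K Q hQ Φ b hΦ hs)
  · intro Q hQ Φ Ψ b hΦ hΨ hs
    have h1 := key ℚ Q hQ Φ b hΦ fun a ha => hs a (Or.inl ha)
    have h2 : {a | Ψ.Holds a b}.Finite := by
      have : {a | Ψ.Holds a b} = ⋃ i, {a | Solvable (Ψ.A i) a b} := by
        ext a
        simp [Forms.Holds]
      rw [this]
      exact Set.finite_iUnion fun i => Pool.Agent.N455.PR.fin_rank5 hQ (hΨ i).1 b (hΨ i).2
        fun a ha => hs a (Or.inr ⟨i, ha⟩)
    exact hthin α h0 hα ℚ _ (h1.union (Thin.of_finite h2))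

end Pool.Agent.U194.TS.NearPowers
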