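import Pool.Agent.U194.TS.Thin
import Pool.Agent.R482.ST.SlowD

/-!
# Thin sets and the integers near the powers of almost every number
-/

set_option autoImplicit false

open Polynomial Filter MeasureTheory
open Pool.Agent.TH783.CE (Thin)

namespace Pool.Agent.U194.TS

lemma good_rare (i : ℚ[X][X] ⊕ ℤ) : Pool.Agent.R482.ST.Thin (fun k => ¬ Good i k) := by
  intro U
  obtain ⟨X₀, h⟩ := good_few i U
  refine ⟨X₀, fun X hX => le_trans (le_of_eq ?_) (h X hX)⟩
  congr 2
  ext k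
  have : k.natAbs ≤ X ↔ |k| ≤ (X : ℤ) := by rw [Int.abs_eq_natAbs, Nat.cast_le]
  simp only [Set.mem_ofPred_eq, this]

/-- **All integers near the powers of almost every number are outside of the thin sets.** -/
theorem powers_thin {v : ℕ → ℝ} (hv : ∀ n, 1 ≤ v n) {t : ℝ} (ht : Summable fun n => (v n) ^ (-t)) :
    ∃ N : Set ℝ, volume N = 0 ∧ ∀ x : ℝ, 1 < x → x ∉ N → ∀ (K : Type) [Field K] [NumberField K] (D : Set K), Thin D →
      ∀ A : ℕ, ∀ᶠ n : ℕ in atTop, ∀ k : ℤ, |(|k| : ℝ) - x ^ (v n)| ≤ (v n) ^ A → (k : K) ∉ D := by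
  obtain ⟨N, h1, h2⟩ := Pool.Agent.R482.ST.thin_family (fun i k => ¬ Good i k) hv ht
  refine ⟨N, h1, fun x hx hxN K _ _ D hD A => ?_⟩
  obtain ⟨J, hJ⟩ := good_cover hD
  filter_upwards [(Finset.eventually_all J).2 fun i _ => eventually_atTop.2 (h2 x hx hxN i (good_rare i) A)] with n hn k hk
  exact hJ k fun i hi => not_not.1 (hn i hi k hk)

end Pool.Agent.U194.TS
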