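import Pool.Agent.N455.HT.Avg

/-!
# Sums over primes: more than every power of the logarithm

If `0 ≤ δ_p ≤ 1` and `∑_p δ_p p ^ (-x) ≥ a ∑_p p ^ (-x) - C` for `x → 1`, `a > 0`, then for every `U` the sum of the `δ_p` over the primes
`p ≤ Y` is at least `(log Y) ^ U` for all large `Y`.
-/

set_option autoImplicit false

open Filter Topology NumberField IsDedekindDomain Pool.Agent.H921R2.TatePole Pool.Agent.N455.HT

namespace Pool.Agent.U194.TS

/-- the primes up to `Y` -/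
noncomputable def PY (Y : ℕ) : Finset Nat.Primes :=
  (Set.Finite.preimage (Nat.Primes.coe_nat_injective.injOn) (Set.finite_Iic Y) :
    {p : Nat.Primes | (p : ℕ) ∈ Set.Iic Y}.Finite).toFinset

lemma mem_PY {Y : ℕ} {p : Nat.Primes} : p ∈ PY Y ↔ (p : ℕ) ≤ Y := by
  unfold PY
  rw [Set.Finite.mem_toFinset]
  exact Iff.rfl

lemma split {g : Nat.Primes → ℝ} (h0 : ∀ p, 0 ≤ g p) (h1 : ∀ p, g p ≤ 1) {ε : ℝ} (hε : 0 < ε) {Y : ℕ} (hY : 1 ≤ Y) :
    ∑' p, g p * w (1 + ε) p ≤ ∑ p ∈ PY Y, g p / ((p : ℕ) : ℝ) + (Y : ℝ) ^ (-(ε / 2)) * W (1 + ε / 2) := by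
  classical
  have hx : (1 : ℝ) < 1 + ε := by linarith
  have hx' : (1 : ℝ) < 1 + ε / 2 := by linarith
  have s1 : Summable fun p : Nat.Primes => g p * w (1 + ε) p :=
    Summable.of_nonneg_of_le (fun p => mul_nonneg (h0 p) (w_nonneg _ p))
      (fun p => mul_le_of_le_one_left (w_nonneg _ p) (h1 p)) (w_summable hx)
  set r : Nat.Primes → ℝ := fun p => if p ∈ PY Y then g p / ((p : ℕ) : ℝ) else 0 with hr
  have s2 : Summable r := summable_of_ne_finset_zero (s := PY Y) (fun p hp => by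
    rw [hr]
    exact if_neg hp)
  have s3 : Summable fun p : Nat.Primes => (Y : ℝ) ^ (-(ε / 2)) * w (1 + ε / 2) p := (w_summable hx').mul_left _
  have hY0 : (0 : ℝ) < Y := by exact_mod_cast hY
  have key : ∀ p : Nat.Primes, g p * w (1 + ε) p ≤ r p + (Y : ℝ) ^ (-(ε / 2)) * w (1 + ε / 2) p := by
    intro p
    have hp0 : (0 : ℝ) < (p : ℕ) := by exact_mod_cast p.prop.pos
    have hp1 : (1 : ℝ) ≤ (p : ℕ) := by exact_mod_cast p.prop.one_lt.le
    have hn : 0 ≤ (Y : ℝ) ^ (-(ε / 2)) * w (1 + ε / 2) p := mul_nonneg (by positivity) (w_nonneg _ p)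
    by_cases hp : p ∈ PY Y
    · have e : r p = g p / ((p : ℕ) : ℝ) := if_pos hp
      have h2 : w (1 + ε) p ≤ (((p : ℕ) : ℝ))⁻¹ := by
        unfold w
        rw [← Real.rpow_neg_one]
        exact Real.rpow_le_rpow_of_exponent_le hp1 (by linarith)
      have h3 : g p * w (1 + ε) p ≤ g p * (((p : ℕ) : ℝ))⁻¹ := mul_le_mul_of_nonneg_left h2 (h0 p)
      rw [e, div_eq_mul_inv]
      linarith
    · have e : r p = 0 := if_neg hp
      have hpY : (Y : ℝ) ≤ (p : ℕ) := by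
        rw [mem_PY, not_le] at hp
        exact_mod_cast hp.le
      have h2 : w (1 + ε) p = ((p : ℕ) : ℝ) ^ (-(ε / 2)) * w (1 + ε / 2) p := by
        unfold w
        rw [← Real.rpow_add hp0]
        congr 1
        ring
      have h3 : ((p : ℕ) : ℝ) ^ (-(ε / 2)) ≤ (Y : ℝ) ^ (-(ε / 2)) :=
        Real.rpow_le_rpow_of_nonpos hY0 hpY (by linarith)
      have h4 : g p * w (1 + ε) p ≤ w (1 + ε) p := mul_le_of_le_one_left (w_nonneg _ p) (h1 p)
      have h5 := mul_le_mul_of_nonneg_right h3 (w_nonneg (1 + ε / 2) p)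
      rw [e, zero_add]
      linarith
  have h4 := Summable.tsum_le_tsum key s1 (s2.add s3)
  rw [Summable.tsum_add s2 s3, tsum_mul_left] at h4
  have h5 : ∑' p, r p = ∑ p ∈ PY Y, g p / ((p : ℕ) : ℝ) := by
    rw [tsum_eq_sum (s := PY Y) (fun p hp => by
      rw [hr]
      exact if_neg hp)]
    exact Finset.sum_congr rfl fun p hp => if_pos hp
  rw [h5] at h4
  exact h4

lemma small {g : Nat.Primes → ℝ} (h0 : ∀ p, 0 ≤ g p) (h1 : ∀ p, g p ≤ 1) {z : ℝ} (hz : 1 < z) (Y : ℕ) :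
    ∑ p ∈ PY Y, g p / ((p : ℕ) : ℝ) ≤ Real.exp 1 * W (1 + 1 / Real.log z) + (∑ p ∈ PY Y, g p) / z := by
  have hl : 0 < Real.log z := Real.log_pos hz
  have hx : (1 : ℝ) < 1 + 1 / Real.log z := by
    have : 0 < 1 / Real.log z := by positivity
    linarith
  have key : ∀ p : Nat.Primes, g p / ((p : ℕ) : ℝ) ≤ Real.exp 1 * w (1 + 1 / Real.log z) p + g p / z := by
    intro p
    have hp0 : (0 : ℝ) < (p : ℕ) := by exact_mod_cast p.prop.pos
    have hp1 : (1 : ℝ) ≤ (p : ℕ) := by exact_mod_cast p.prop.one_lt.le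
    have hw := w_nonneg (1 + 1 / Real.log z) p
    have hg := h0 p
    by_cases hp : ((p : ℕ) : ℝ) ≤ z
    · have h2 : Real.exp (-1) ≤ ((p : ℕ) : ℝ) ^ (-(1 / Real.log z)) := by
        rw [Real.rpow_def_of_pos hp0]
        apply Real.exp_le_exp.2
        have h3 : Real.log ((p : ℕ) : ℝ) ≤ Real.log z := Real.log_le_log hp0 hp
        have h4 : Real.log ((p : ℕ) : ℝ) * (1 / Real.log z) ≤ 1 := by
          rw [mul_one_div, div_le_one hl]
          exact h3
        linarith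
      have h3 : w (1 + 1 / Real.log z) p = (((p : ℕ) : ℝ))⁻¹ * ((p : ℕ) : ℝ) ^ (-(1 / Real.log z)) := by
        unfold w
        rw [← Real.rpow_neg_one, ← Real.rpow_add hp0]
        congr 1
        ring
      have h4 : (((p : ℕ) : ℝ))⁻¹ ≤ Real.exp 1 * w (1 + 1 / Real.log z) p := by
        rw [h3]
        have h5 : (((p : ℕ) : ℝ))⁻¹ * Real.exp (-1) ≤ (((p : ℕ) : ℝ))⁻¹ * ((p : ℕ) : ℝ) ^ (-(1 / Real.log z)) :=
          mul_le_mul_of_nonneg_left h2 (by positivity)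
        calc (((p : ℕ) : ℝ))⁻¹ = Real.exp 1 * ((((p : ℕ) : ℝ))⁻¹ * Real.exp (-1)) := by
              rw [Real.exp_neg]
              have := Real.exp_pos 1
              field_simp
          _ ≤ _ := mul_le_mul_of_nonneg_left h5 (Real.exp_pos 1).le
      have h5 : g p / ((p : ℕ) : ℝ) ≤ (((p : ℕ) : ℝ))⁻¹ := by
        rw [div_eq_mul_inv]
        exact mul_le_of_le_one_left (by positivity) (h1 p)
      have h6 : 0 ≤ g p / z := by positivity
      linarith
    · have h2 : g p / ((p : ℕ) : ℝ) ≤ g p / z := div_le_div_of_nonneg_left hg (by linarith) (not_le.1 hp).le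
      have h3 : 0 ≤ Real.exp 1 * w (1 + 1 / Real.log z) p := by positivity
      linarith
  refine (Finset.sum_le_sum fun p _ => key p).trans ?_
  rw [Finset.sum_add_distrib, ← Finset.mul_sum, ← Finset.sum_div]
  have h2 : ∑ p ∈ PY Y, w (1 + 1 / Real.log z) p ≤ W (1 + 1 / Real.log z) :=
    (w_summable hx).sum_le_tsum _ (fun p _ => w_nonneg _ p)
  have h3 := mul_le_mul_of_nonneg_left h2 (Real.exp_pos 1).le
  linarith

lemma tendsto_one {f : ℝ → ℝ} (hf : Tendsto f atTop atTop) : Tendsto (fun s => 1 + 1 / f s) atTop (𝓝[>] 1) := by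
  rw [tendsto_nhdsWithin_iff]
  constructor
  · have h1 : Tendsto (fun s => 1 / f s) atTop (𝓝 0) := by
      simpa [Function.comp_def] using tendsto_inv_atTop_zero.comp hf
    simpa using h1.const_add 1
  · filter_upwards [hf.eventually_gt_atTop 0] with s hs
    have : 0 < 1 / f s := by positivity
    exact Set.mem_Ioi.2 (by linarith)

lemma Lam_one (t : ℝ) : Lam (1 + 1 / t) = Real.log t := by
  unfold Lam
  rw [add_sub_cancel_left, one_div_one_div]

/-- **More than every power of the logarithm.** -/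
theorem core {g : Nat.Primes → ℝ} (h0 : ∀ p, 0 ≤ g p) (h1 : ∀ p, g p ≤ 1) {a C : ℝ} (ha : 0 < a)
    (hlow : ∀ᶠ x in 𝓝[>] (1 : ℝ), a * Lam x - C ≤ ∑' p, g p * w x p) (U : ℕ) :
    ∃ Y₀ : ℕ, ∀ Y : ℕ, Y₀ ≤ Y → Real.log Y ^ U ≤ ∑ p ∈ PY Y, g p := by
  obtain ⟨C', hC'⟩ := W_sub_Lam_bdd
  obtain ⟨V, hV⟩ : ∃ V : ℕ, V = 2 * (U + 1) := ⟨_, rfl⟩
  have hV0 : (0 : ℝ) < V := by
    rw [hV]
    positivity
  have e1 : (0 : ℝ) < Real.exp 1 := Real.exp_pos 1
  -- the eventual inequalities in `s`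
  have t1 := tendsto_one tendsto_id
  have t2 := tendsto_one (tendsto_id.const_mul_atTop (show (0 : ℝ) < 2 by norm_num))
  have t3 := tendsto_one (Real.tendsto_log_atTop.const_mul_atTop hV0)
  have a1 := t1.eventually hlow
  have a2 := t2.eventually hC'
  have a3 := t3.eventually hC'
  have a4 : ∀ᶠ s : ℝ in atTop, Real.exp (-(s / 2)) * (2 * s + |C'|) ≤ 1 := by
    filter_upwards [eventually_ge_atTop (32 : ℝ), eventually_ge_atTop (16 * |C'|)] with s hs hs'
    have h2 := Real.quadratic_le_exp_of_nonneg (show (0 : ℝ) ≤ s / 2 by linarith)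
    have h3 : 2 * s + |C'| ≤ Real.exp (s / 2) := by nlinarith [abs_nonneg C']
    rw [Real.exp_neg]
    have h4 := Real.exp_pos (s / 2)
    rw [inv_mul_le_iff₀ h4]
    linarith
  have a5 : ∀ᶠ t : ℝ in atTop, C + 2 + Real.exp 1 * (Real.log (V * t) + |C'|) < a * t := by
    have h2 := Real.isLittleO_log_id_atTop.bound (show (0 : ℝ) < a / (2 * Real.exp 1) by positivity)
    filter_upwards [h2, eventually_gt_atTop (0 : ℝ),
      eventually_gt_atTop ((C + 2 + Real.exp 1 * (Real.log V + |C'|)) / (a / 2))] with t h3 ht ht2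
    rw [div_lt_iff₀ (by positivity)] at ht2
    rw [Real.norm_eq_abs, Real.norm_eq_abs, id, abs_of_pos ht] at h3
    rw [Real.log_mul hV0.ne' ht.ne']
    have h4 : Real.exp 1 * Real.log t ≤ a / 2 * t := by
      have h5 := (le_abs_self _).trans h3
      calc Real.exp 1 * Real.log t ≤ Real.exp 1 * (a / (2 * Real.exp 1) * t) := mul_le_mul_of_nonneg_left h5 e1.le
        _ = _ := by field_simp
    nlinarith
  have a5' := Real.tendsto_log_atTop.eventually a5
  have hs := (Real.tendsto_sqrt_atTop.comp Real.tendsto_log_atTop).comp (tendsto_natCast_atTop_atTop (R := ℝ))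
  have hall := hs.eventually (a1.and (a2.and (a3.and (a4.and (a5'.and (eventually_gt_atTop (1 : ℝ)))))))
  obtain ⟨Y₀, hY₀⟩ := eventually_atTop.1 (hall.and (eventually_ge_atTop 3))
  refine ⟨Y₀, fun Y hY => ?_⟩
  obtain ⟨⟨b1, b2, b3, b4, b5, b6⟩, hY3⟩ := hY₀ Y hY
  simp only [Function.comp] at b1 b2 b3 b4 b5 b6
  set s : ℝ := √(Real.log Y) with hs'
  have hs0 : 0 < s := by linarith
  have hlogY : s ^ 2 = Real.log Y := by
    have hY1 : (1 : ℝ) ≤ Y := by exact_mod_cast (by omega : 1 ≤ Y)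
    exact Real.sq_sqrt (Real.log_nonneg hY1)
  have hY0 : (0 : ℝ) < Y := by exact_mod_cast (by omega : 0 < Y)
  by_contra hcon
  rw [not_le] at hcon
  obtain ⟨z, hz⟩ : ∃ z : ℝ, z = s ^ V := ⟨_, rfl⟩
  have hz1 : 1 < z := by
    rw [hz]
    exact one_lt_pow₀ b6 (by omega)
  have hlz : Real.log z = V * Real.log s := by rw [hz, Real.log_pow]
  have hS : ∑ p ∈ PY Y, g p ≤ z := by
    refine hcon.le.trans ?_
    rw [← hlogY, ← pow_mul, hz]
    exact pow_le_pow_right₀ b6.le (by omega)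
  have c1 := split h0 h1 (ε := 1 / s) (by positivity) (Y := Y) (by omega)
  have c2 := small h0 h1 hz1 Y
  have c3 : (∑ p ∈ PY Y, g p) / z ≤ 1 := (div_le_one (by linarith)).2 hS
  have c4 : (Y : ℝ) ^ (-(1 / s / 2)) = Real.exp (-(s / 2)) := by
    rw [Real.rpow_def_of_pos hY0, ← hlogY]
    congr 1
    field_simp
  have c5 : (1 : ℝ) + 1 / s / 2 = 1 + 1 / (2 * s) := by
    congr 1
    field_simp
  simp only [id] at b1 b2
  rw [c4, c5] at c1
  rw [Lam_one] at b1 b2 b3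
  rw [← hlz] at b3
  have d1 : W (1 + 1 / (2 * s)) ≤ 2 * s + |C'| := by
    have h2 := (abs_le.1 b2).2
    have h3 : Real.log (2 * s) ≤ 2 * s := (Real.log_le_sub_one_of_pos (by positivity)).trans (by linarith)
    have h4 := le_abs_self C'
    linarith
  have d2 : Real.exp (-(s / 2)) * W (1 + 1 / (2 * s)) ≤ 1 :=
    (mul_le_mul_of_nonneg_left d1 (Real.exp_pos _).le).trans b4
  have d3 : W (1 + 1 / Real.log z) ≤ Real.log (Real.log z) + |C'| := by
    have h2 := (abs_le.1 b3).2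
    have h4 := le_abs_self C'
    linarith
  have d4 := mul_le_mul_of_nonneg_left d3 e1.le
  rw [← hlz] at b5
  linarith

/-- The sum of the densities. -/
theorem sum_ge (L₁ L₂ : Type) [Field L₁] [NumberField L₁] [Field L₂] [NumberField L₂]
    {a B : ℝ} (ha : 0 < a) (hB : 0 ≤ B) (p₀ : ℕ) (δ : ℕ → ℝ) (h0 : ∀ p, 0 ≤ δ p) (h1 : ∀ p, δ p ≤ 1)
    (h : ∀ p : ℕ, p.Prime → p₀ ≤ p → 1 - (hc (𝓞 L₁) p : ℝ) + a * hc (𝓞 L₂) p -
      B * (p : ℝ) ^ (-(1 / 2 : ℝ)) ≤ δ p) (U : ℕ) :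
    ∃ Y₀ : ℕ, ∀ Y : ℕ, Y₀ ≤ Y → Real.log Y ^ U ≤ ∑ p ∈ (Finset.Icc 1 Y).filter Nat.Prime, δ p := by
  classical
  have hsm : {p : Nat.Primes | (p : ℕ) < p₀}.Finite :=
    Set.Finite.preimage (Nat.Primes.coe_nat_injective.injOn) (Set.finite_lt_nat p₀)
  set K : ℝ := 1 + a * Module.finrank ℚ L₂ with hK
  have hK0 : 0 ≤ K := by rw [hK]; positivity
  set e : Nat.Primes → ℝ := fun p => if (p : ℕ) < p₀ then K else 0 with he
  have he0 : ∀ p, 0 ≤ e p := by
    intro p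
    rw [he]
    dsimp only
    split_ifs
    · exact hK0
    · exact le_rfl
  have hes : Summable e := by
    refine summable_of_hasFiniteSupport (hsm.subset ?_)
    intro p hp
    by_contra h2
    apply hp
    rw [he]
    dsimp only
    exact if_neg h2
  have hkey : ∀ x : ℝ, 1 < x → W x - ∑' p : Nat.Primes, (hc (𝓞 L₁) p : ℝ) * w x p +
      a * ∑' p : Nat.Primes, (hc (𝓞 L₂) p : ℝ) * w x p - B * C3 ≤ ∑' p : Nat.Primes, δ p * w x p + ∑' p, e p := by
    intro x hx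
    have s1 := hc_summable L₁ hx
    have s2 := hc_summable L₂ hx
    have s3 := half_summable hx
    have s4 := w_summable hx
    have s5 : Summable fun p : Nat.Primes => δ p * w x p :=
      Summable.of_nonneg_of_le (fun p => mul_nonneg (h0 p) (w_nonneg x p))
        (fun p => mul_le_of_le_one_left (w_nonneg x p) (h1 p)) s4
    have s6 : Summable fun p : Nat.Primes => e p * w x p :=
      Summable.of_nonneg_of_le (fun p => mul_nonneg (he0 p) (w_nonneg x p))
        (fun p => mul_le_of_le_one_right (he0 p) (w_le_one hx p)) hes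
    have h2 : ∀ p : Nat.Primes, w x p - (hc (𝓞 L₁) p : ℝ) * w x p + a * ((hc (𝓞 L₂) p : ℝ) * w x p) -
        B * (((p : ℕ) : ℝ) ^ (-(1 / 2 : ℝ)) * w x p) ≤ δ p * w x p + e p * w x p := by
      intro p
      have hw := w_nonneg x p
      have h3 : 1 - (hc (𝓞 L₁) p : ℝ) + a * hc (𝓞 L₂) p - B * ((p : ℕ) : ℝ) ^ (-(1 / 2 : ℝ)) ≤
          δ p + e p := by
        by_cases hp : p₀ ≤ (p : ℕ)
        · have h4 := h p p.prop hp
          have h6 := he0 p
          linarith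
        · have h4 : e p = K := if_pos (not_le.1 hp)
          have h5 := h0 p
          have h6 := hc_le L₂ p
          have h7 : (0 : ℝ) ≤ (hc (𝓞 L₁) p : ℝ) := by positivity
          have h8 : 0 ≤ B * ((p : ℕ) : ℝ) ^ (-(1 / 2 : ℝ)) := by positivity
          have h9 : a * (hc (𝓞 L₂) p : ℝ) ≤ a * Module.finrank ℚ L₂ :=
            mul_le_mul_of_nonneg_left h6 ha.le
          rw [h4, hK]
          linarith
      calc _ = (1 - (hc (𝓞 L₁) p : ℝ) + a * hc (𝓞 L₂) p -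
            B * ((p : ℕ) : ℝ) ^ (-(1 / 2 : ℝ))) * w x p := by ring
        _ ≤ (δ p + e p) * w x p := mul_le_mul_of_nonneg_right h3 hw
        _ = _ := by ring
    have h4 := Summable.tsum_le_tsum h2 (((s4.sub s1).add (s2.mul_left a)).sub (s3.mul_left B))
      (s5.add s6)
    rw [Summable.tsum_sub ((s4.sub s1).add (s2.mul_left a)) (s3.mul_left B),
      Summable.tsum_add (s4.sub s1) (s2.mul_left a), Summable.tsum_sub s4 s1, tsum_mul_left,
      tsum_mul_left, Summable.tsum_add s5 s6] at h4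
    have h6 : ∑' p : Nat.Primes, e p * w x p ≤ ∑' p, e p :=
      Summable.tsum_le_tsum (fun p => mul_le_of_le_one_right (he0 p) (w_le_one hx p)) s6 hes
    have h7 : ∑' p : Nat.Primes, ((p : ℕ) : ℝ) ^ (-(1 / 2 : ℝ)) * w x p ≤ C3 :=
      Summable.tsum_le_tsum (half_le hx) s3 (summable_primes_rpow (by norm_num))
    have h8 : B * ∑' p : Nat.Primes, ((p : ℕ) : ℝ) ^ (-(1 / 2 : ℝ)) * w x p ≤ B * C3 :=
      mul_le_mul_of_nonneg_left h7 hB
    have h9 : ∑' p : Nat.Primes, w x p = W x := rfl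
    rw [h9] at h4
    linarith
  obtain ⟨C₁, hC₁⟩ := hom_sum_bdd L₁
  obtain ⟨C₂, hC₂⟩ := hom_sum_bdd L₂
  obtain ⟨C₀, hC₀⟩ := W_sub_Lam_bdd
  obtain ⟨Y₀, hY₀⟩ := core (g := fun p : Nat.Primes => δ p) (fun p => h0 p) (fun p => h1 p) (a := a)
    (C := C₁ + a * C₂ + a * C₀ + B * C3 + ∑' p, e p) ha (by
      filter_upwards [hC₁, hC₂, hC₀, self_mem_nhdsWithin] with x hx1 hx2 hx3 hx
      have hk := hkey x hx
      have b1 := (abs_le.1 hx1).2
      have b2 := (abs_le.1 hx2).1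
      have b3 := (abs_le.1 hx3).1
      have b4 : a * (Lam x - C₀ - C₂) ≤ a * ∑' p : Nat.Primes, (hc (𝓞 L₂) p : ℝ) * w x p :=
        mul_le_mul_of_nonneg_left (by linarith) ha.le
      nlinarith) U
  refine ⟨Y₀, fun Y hY => (hY₀ Y hY).trans (le_of_eq ?_)⟩
  have e : (PY Y).map ⟨fun p : Nat.Primes => (p : ℕ), Nat.Primes.coe_nat_injective⟩ = (Finset.Icc 1 Y).filter Nat.Prime := by
    ext n
    rw [Finset.mem_map, Finset.mem_filter, Finset.mem_Icc]
    constructor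
    · rintro ⟨q, hq, rfl⟩
      exact ⟨⟨q.prop.one_lt.le, mem_PY.1 hq⟩, q.prop⟩
    · rintro ⟨⟨_, h2⟩, h3⟩
      exact ⟨⟨n, h3⟩, mem_PY.2 h2, rfl⟩
  rw [← e, Finset.sum_map]
  rfl

end Pool.Agent.U194.TS
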