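import Pool.Agent.U194.TS.Sum
import Pool.Agent.N455.PR.Null
import Pool.Agent.U513.AP.LogInt

/-!
# Few integers in thin sets: the number of the `|k| ≤ X` in a thin set is at most `X / (log X) ^ U` for all `U`

The sieve of Turán with the lower bound for the sum of the densities of the residue classes without roots.
-/

set_option autoImplicit false

open Polynomial Filter MeasureTheory Topology
open Pool.Agent.N666.TM (Well turan dens)
open Pool.Agent.Y722.HS Pool.Agent.N455.HT Pool.Agent.N455.PR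
open Pool.Agent.TH783.CE (Thin)

namespace Pool.Agent.U194.TS

lemma count_class (X q : ℕ) (hq : 1 ≤ q) (r : ZMod q) :
    |(((Finset.Ioc 0 X).filter (fun n : ℕ => (n : ZMod q) = r)).card : ℝ) - X / q| ≤ 1 := by
  have : NeZero q := ⟨by omega⟩
  have e : (Finset.Ioc 0 X).filter (fun n : ℕ => (n : ZMod q) = r) =
      (Finset.Ioc 0 X).filter (fun n : ℕ => n ≡ r.val [MOD q]) := by
    refine Finset.filter_congr fun n _ => ?_
    rw [← ZMod.natCast_eq_natCast_iff, ZMod.natCast_zmod_val]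
  rw [e]
  have h := Nat.Ioc_filter_modEq_card 0 X (r := q) (by omega) r.val
  have hq0 : (0 : ℚ) < q := by exact_mod_cast hq
  set A : ℚ := ((X : ℚ) - (r.val : ℕ)) / q with hA
  set B : ℚ := (((0 : ℕ) : ℚ) - (r.val : ℕ)) / q with hB
  have hAB : A - B = X / q := by
    rw [hA, hB]
    field_simp
    push_cast
    ring
  have hX0 : (0 : ℚ) ≤ X / q := by positivity
  have hm : ⌊B⌋ ≤ ⌊A⌋ := Int.floor_mono (by linarith)
  rw [max_eq_left (sub_nonneg.2 hm)] at h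
  have h2 : (((Finset.Ioc 0 X).filter (fun n : ℕ => n ≡ r.val [MOD q])).card : ℚ) = (⌊A⌋ : ℚ) - ⌊B⌋ := by
    have := congrArg (fun z : ℤ => (z : ℚ)) h
    push_cast at this
    exact this
  have h3 : |(((Finset.Ioc 0 X).filter (fun n : ℕ => n ≡ r.val [MOD q])).card : ℚ) - X / q| ≤ 1 := by
    rw [h2, abs_le]
    have a1 := Int.floor_le A
    have a2 := Int.lt_floor_add_one A
    have b1 := Int.floor_le B
    have b2 := Int.lt_floor_add_one B
    constructor <;> linarith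
  have h4 : ((|(((Finset.Ioc 0 X).filter (fun n : ℕ => n ≡ r.val [MOD q])).card : ℚ) - X / q| : ℚ) : ℝ) ≤ ((1 : ℚ) : ℝ) := by
    exact_mod_cast h3
  push_cast at h4
  exact h4

lemma well {X H : ℕ} (hX : (2 * H + 1) ^ 2 ≤ X) (σ : ℤ) (hσ : σ = 1 ∨ σ = -1) :
    Well (Finset.Ioc 0 X) (fun (n : ℕ) (_ : Unit) => σ * (n : ℤ)) H := by
  have hX1 : 1 ≤ X := le_trans (Nat.one_le_iff_ne_zero.2 (by positivity)) hX
  have hXr : (0 : ℝ) < X := by exact_mod_cast hX1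
  refine ⟨by simp; omega, fun q hq hqH ρ => ?_⟩
  classical
  have hqr : (0 : ℝ) < q := by exact_mod_cast hq
  have e : (Finset.Ioc 0 X).filter (fun n : ℕ => red q (fun _ : Unit => σ * (n : ℤ)) = ρ) =
      (Finset.Ioc 0 X).filter (fun n : ℕ => (n : ZMod q) = (σ : ZMod q) * ρ ()) := by
    refine Finset.filter_congr fun n _ => ?_
    constructor
    · intro h
      have h1 := congrFun h ()
      have h2 : ((σ * (n : ℤ) : ℤ) : ZMod q) = ρ () := h1
      rw [← h2]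
      rcases hσ with rfl | rfl <;> simp
    · intro h
      funext i
      have h1 : red q (fun _ : Unit => σ * (n : ℤ)) i = ((σ * (n : ℤ) : ℤ) : ZMod q) := rfl
      rw [h1, Int.cast_mul, Int.cast_natCast, h]
      have h2 : ρ i = ρ () := rfl
      rw [h2]
      rcases hσ with rfl | rfl <;> simp
  have e' : (({n ∈ Finset.Ioc 0 X | red q ((fun (n : ℕ) (_ : Unit) => σ * (n : ℤ)) n) = ρ} : Finset ℕ).card) =
      ((Finset.Ioc 0 X).filter (fun n : ℕ => (n : ZMod q) = (σ : ZMod q) * ρ ())).card := by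
    rw [← e]
  rw [e', Nat.card_Ioc, Nat.sub_zero]
  have h1 := count_class X q hq ((σ : ZMod q) * ρ ())
  have hc : Fintype.card Unit = 1 := rfl
  rw [hc, pow_one]
  have h2 : ((((Finset.Ioc 0 X).filter (fun n : ℕ => (n : ZMod q) = (σ : ZMod q) * ρ ())).card : ℕ) : ℝ) / X - 1 / q =
      (((((Finset.Ioc 0 X).filter (fun n : ℕ => (n : ZMod q) = (σ : ZMod q) * ρ ())).card : ℕ) : ℝ) - X / q) / X := by
    field_simp
  rw [h2, abs_div, abs_of_pos hXr, div_le_iff₀ hXr]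
  refine h1.trans ?_
  have h3 : ((2 * H + 1 : ℕ) : ℝ) * q ≤ X := by
    have : (2 * H + 1) * q ≤ X := (Nat.mul_le_mul_left _ hqH).trans (by rw [← sq]; exact hX)
    exact_mod_cast this
  push_cast at h3
  rw [one_div_mul_one_div, div_mul_eq_mul_div, one_mul, le_div_iff₀ (by positivity), one_mul]
  exact h3

/-- few elements -/
def Few (A : Set ℕ) : Prop := ∀ U : ℕ, ∃ X₀ : ℕ, ∀ X : ℕ, X₀ ≤ X → ({n : ℕ | n ∈ Finset.Ioc 0 X ∧ n ∈ A}.ncard : ℝ) ≤ X / Real.log X ^ U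

lemma few_fin (A : Set ℕ) (X : ℕ) : {n : ℕ | n ∈ Finset.Ioc 0 X ∧ n ∈ A}.Finite :=
  (Finset.finite_toSet (Finset.Ioc 0 X)).subset fun _ hn => hn.1

lemma Few.mono {A B : Set ℕ} (h : Few B) (hAB : A ⊆ B) : Few A := by
  intro U
  obtain ⟨X₀, h⟩ := h U
  refine ⟨X₀, fun X hX => le_trans ?_ (h X hX)⟩
  refine Nat.cast_le.2 (Set.ncard_le_ncard ?_ (few_fin B X))
  rintro n ⟨hn1, hn2⟩
  exact ⟨hn1, hAB hn2⟩

lemma log_ge (c : ℝ) : ∃ X₀ : ℕ, ∀ X : ℕ, X₀ ≤ X → c ≤ Real.log X :=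
  eventually_atTop.1 ((Real.tendsto_log_atTop.comp (tendsto_natCast_atTop_atTop (R := ℝ))).eventually_ge_atTop c)

lemma Few.union {A B : Set ℕ} (hA : Few A) (hB : Few B) : Few (A ∪ B) := by
  intro U
  obtain ⟨X₁, h₁⟩ := hA (U + 1)
  obtain ⟨X₂, h₂⟩ := hB (U + 1)
  obtain ⟨X₃, h₃⟩ := log_ge 2
  refine ⟨max X₁ (max X₂ X₃), fun X hX => ?_⟩
  have a1 := h₁ X ((le_max_left _ _).trans hX)
  have a2 := h₂ X (((le_max_left _ _).trans (le_max_right _ _)).trans hX)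
  have a3 := h₃ X (((le_max_right _ _).trans (le_max_right _ _)).trans hX)
  have h4 : {n : ℕ | n ∈ Finset.Ioc 0 X ∧ n ∈ A ∪ B} =
      {n : ℕ | n ∈ Finset.Ioc 0 X ∧ n ∈ A} ∪ {n : ℕ | n ∈ Finset.Ioc 0 X ∧ n ∈ B} := by
    ext n
    simp only [Set.mem_ofPred_eq, Set.mem_union]
    tauto
  have h5 : (({n : ℕ | n ∈ Finset.Ioc 0 X ∧ n ∈ A ∪ B}.ncard : ℕ) : ℝ) ≤
      ({n : ℕ | n ∈ Finset.Ioc 0 X ∧ n ∈ A}.ncard : ℝ) + ({n : ℕ | n ∈ Finset.Ioc 0 X ∧ n ∈ B}.ncard : ℝ) := by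
    rw [h4]
    exact_mod_cast Set.ncard_union_le _ _
  have hl : 0 < Real.log X := by linarith
  have h6 : (X : ℝ) / Real.log X ^ (U + 1) ≤ X / Real.log X ^ U / 2 := by
    rw [pow_succ, ← div_div]
    exact div_le_div_of_nonneg_left (by positivity) (by norm_num) a3
  linarith

lemma Few.empty : Few ∅ := by
  intro U
  refine ⟨1, fun X hX => ?_⟩
  have h1 : {n : ℕ | n ∈ Finset.Ioc 0 X ∧ n ∈ (∅ : Set ℕ)} = ∅ := by
    ext n
    simp
  have hX1 : (1 : ℝ) ≤ X := by exact_mod_cast hX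
  have := Real.log_nonneg hX1
  rw [h1, Set.ncard_empty, Nat.cast_zero]
  positivity

theorem few_irr {P : (MvPolynomial Unit ℤ)[X]} (hP : P.Monic) (hd : 2 ≤ P.natDegree) (hirr : Irreducible P)
    (σ : ℤ) (hσ : σ = 1 ∨ σ = -1) : Few {n | ∃ a : ℤ, IsRt P (fun _ : Unit => σ * (n : ℤ)) a} := by
  classical
  intro U
  obtain ⟨L₁, i₁, n₁, L₂, i₂, n₂, B, p₀, hB, h⟩ := dens_lower hP hd hirr
  have hD : (0 : ℝ) < P.natDegree := by exact_mod_cast (by omega : 0 < P.natDegree)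
  set δ : ℕ → ℝ := fun p => if p.Prime then ((NR P p).ncard : ℝ) / (p : ℝ) ^ Fintype.card Unit else 0 with hδ
  have hδp : ∀ p : ℕ, p.Prime → δ p = ((NR P p).ncard : ℝ) / (p : ℝ) ^ Fintype.card Unit := fun p hp => if_pos hp
  have h0 : ∀ p, 0 ≤ δ p := by
    intro p
    rw [hδ]
    dsimp only
    split_ifs <;> positivity
  have h1 : ∀ p, δ p ≤ 1 := by
    intro p
    rw [hδ]
    dsimp only
    split_ifs with hp
    · have : NeZero p := ⟨hp.ne_zero⟩
      have h2 : (NR P p).ncard ≤ p ^ Fintype.card Unit := by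
        refine (Set.ncard_le_card _).trans (le_of_eq ?_)
        rw [Nat.card_eq_fintype_card, Fintype.card_fun, ZMod.card]
      refine div_le_one_of_le₀ ?_ (by positivity)
      exact_mod_cast h2
    · exact zero_le_one
  obtain ⟨Y₀, hY₀⟩ := sum_ge L₁ L₂ (a := 1 / P.natDegree) (by positivity) hB p₀ δ h0 h1
    (fun p hp hpp => by
      rw [hδp p hp]
      exact h p hp hpp) (U + 1)
  obtain ⟨X₁, hX₁⟩ := log_ge (6 * 8 ^ (U + 1))
  refine ⟨max X₁ ((max Y₀ 3 + 2) ^ 4), fun X hX => ?_⟩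
  have hlog := hX₁ X ((le_max_left _ _).trans hX)
  have hX2 : (max Y₀ 3 + 2) ^ 4 ≤ X := (le_max_right _ _).trans hX
  obtain ⟨t, ht⟩ : ∃ t : ℕ, t = Nat.sqrt (Nat.sqrt X) := ⟨_, rfl⟩
  have ht1 : t ^ 4 ≤ X := by
    have a1 := Nat.sqrt_le' (Nat.sqrt X)
    have a2 := Nat.sqrt_le' X
    rw [← ht] at a1
    calc t ^ 4 = (t ^ 2) ^ 2 := by ring
      _ ≤ (Nat.sqrt X) ^ 2 := Nat.pow_le_pow_left a1 2
      _ ≤ X := a2
  have ht2 : X < (t + 1) ^ 4 := by
    have a1 := Nat.lt_succ_sqrt' (Nat.sqrt X)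
    have a2 := Nat.lt_succ_sqrt' X
    rw [← ht] at a1
    simp only [Nat.succ_eq_add_one] at a1 a2
    calc X < (Nat.sqrt X + 1) ^ 2 := a2
      _ ≤ ((t + 1) ^ 2) ^ 2 := Nat.pow_le_pow_left (by omega) 2
      _ = (t + 1) ^ 4 := by ring
  have ht3 : max Y₀ 3 + 1 ≤ t := by
    by_contra hcon
    have a1 : t + 1 ≤ max Y₀ 3 + 1 := by omega
    have a2 := Nat.pow_le_pow_left a1 4
    have a3 : (max Y₀ 3 + 1) ^ 4 < (max Y₀ 3 + 2) ^ 4 := Nat.pow_lt_pow_left (by omega) (by norm_num)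
    omega
  obtain ⟨Y, hY⟩ : ∃ Y : ℕ, t = Y + 1 := ⟨t - 1, by omega⟩
  have hYY : Y₀ ≤ Y ∧ 3 ≤ Y := by
    have a1 := le_max_left Y₀ 3
    have a2 := le_max_right Y₀ 3
    omega
  subst hY
  have hlogY : Real.log X ≤ 8 * Real.log Y := by
    have hY0 : (0 : ℝ) < Y := by exact_mod_cast (by omega : 0 < Y)
    have a1 : X ≤ Y ^ 8 := by
      refine ht2.le.trans ?_
      have : Y + 1 + 1 ≤ Y ^ 2 := by nlinarith [hYY.2]
      calc (Y + 1 + 1) ^ 4 ≤ (Y ^ 2) ^ 4 := Nat.pow_le_pow_left this 4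
        _ = Y ^ 8 := by ring
    have a2 : (X : ℝ) ≤ (Y : ℝ) ^ 8 := by exact_mod_cast a1
    have hXpos : (0 : ℝ) < X := by
      have : 0 < (Y + 1) ^ 4 := by positivity
      exact_mod_cast lt_of_lt_of_le this ht1
    have a3 := Real.log_le_log hXpos a2
    rw [Real.log_pow] at a3
    exact_mod_cast a3
  obtain ⟨H, hH⟩ : ∃ H : ℕ, H = Y ^ 2 / 2 := ⟨_, rfl⟩
  have hH1 : Y ^ 2 ≤ 2 * H + 1 := by omega
  have hH2 : 2 * H + 1 ≤ Y ^ 2 + 1 := by omega
  have hHX : (2 * H + 1) ^ 2 ≤ X := by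
    calc (2 * H + 1) ^ 2 ≤ ((Y + 1) ^ 2) ^ 2 := Nat.pow_le_pow_left (hH2.trans (by nlinarith)) 2
      _ = (Y + 1) ^ 4 := by ring
      _ ≤ X := ht1
  set T : Finset ℕ := (Finset.Icc 1 Y).filter Nat.Prime with hT
  have hTp : ∀ p ∈ T, p.Prime := fun p hp => (Finset.mem_filter.1 hp).2
  have hTY : ∀ p ∈ T, p ≤ Y := fun p hp => (Finset.mem_Icc.1 (Finset.mem_filter.1 hp).1).2
  have hμ : Real.log Y ^ (U + 1) ≤ ∑ p ∈ T, δ p := hY₀ Y hYY.1
  have hlogX0 : 0 < Real.log X := lt_of_lt_of_le (by positivity) hlog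
  have hlogY0 : 0 < Real.log Y := by linarith
  set μ : ℝ := ∑ p ∈ T, δ p with hμd
  have hμ0 : 0 < μ := lt_of_lt_of_le (by positivity) hμ
  have hμY : μ ≤ Y := by
    calc μ ≤ ∑ p ∈ T, (1 : ℝ) := Finset.sum_le_sum fun p _ => h1 p
      _ = (T.card : ℝ) := by simp
      _ ≤ Y := by
        have : T.card ≤ (Finset.Icc 1 Y).card := Finset.card_filter_le _ _
        rw [Nat.card_Icc] at this
        exact_mod_cast (by omega : T.card ≤ Y)
  have hW := well hHX σ hσ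
  have htur := turan hW T (fun p => p) (fun p hp => (hTp p hp).pos)
    (fun p hp p' hp' hne => (Nat.coprime_primes (hTp p hp) (hTp p' hp')).2 hne)
    (fun p hp p' hp' => by
      have := Nat.mul_le_mul (hTY p hp) (hTY p' hp')
      have e : Y * Y = Y ^ 2 := (sq _).symm
      omega)
    (fun p => NR P p) μ (by
      rw [hμd]
      refine Finset.sum_congr rfl fun p hp => ?_
      rw [hδp p (hTp p hp)]
      rfl) hμ0
  have hsub : {n : ℕ | n ∈ Finset.Ioc 0 X ∧ n ∈ {n : ℕ | ∃ a : ℤ, IsRt P (fun _ : Unit => σ * (n : ℤ)) a}} ⊆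
      ((Finset.Ioc 0 X).filter fun n => ∀ p ∈ T, red p ((fun (n : ℕ) (_ : Unit) => σ * (n : ℤ)) n) ∉ NR P p : Finset ℕ) := by
    rintro n ⟨hn, a, ha⟩
    rw [Finset.mem_coe, Finset.mem_filter]
    exact ⟨hn, fun p _ hp => hp a (isRt_red ha p)⟩
  have h2 := Set.ncard_le_ncard hsub (Finset.finite_toSet _)
  rw [Set.ncard_coe_finset] at h2
  have h3 : (({n : ℕ | n ∈ Finset.Ioc 0 X ∧ n ∈ {n : ℕ | ∃ a : ℤ, IsRt P (fun _ : Unit => σ * (n : ℤ)) a}}.ncard : ℕ) : ℝ) ≤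
      (2 / μ + 4 / (2 * H + 1)) * (Finset.Ioc 0 X).card := (Nat.cast_le.2 h2).trans htur
  rw [Nat.card_Ioc, Nat.sub_zero] at h3
  refine h3.trans ?_
  have h4 : (4 : ℝ) / (2 * H + 1) ≤ 4 / μ := by
    refine div_le_div_of_nonneg_left (by norm_num) hμ0 ?_
    have a1 : ((Y ^ 2 : ℕ) : ℝ) ≤ ((2 * H + 1 : ℕ) : ℝ) := by exact_mod_cast hH1
    have a2 : (1 : ℝ) ≤ Y := by exact_mod_cast (by omega : 1 ≤ Y)
    push_cast at a1
    nlinarith
  have h5 : (2 / μ + 4 / (2 * H + 1) : ℝ) ≤ 1 / Real.log X ^ U := by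
    have a1 : (2 : ℝ) / μ + 4 / μ = 6 / μ := by ring
    have a2 : (Real.log X / 8) ^ (U + 1) ≤ μ := by
      refine le_trans (pow_le_pow_left₀ (by positivity) ?_ _) hμ
      rw [div_le_iff₀ (by norm_num)]
      linarith
    have a3 : (6 : ℝ) / μ ≤ 6 / (Real.log X / 8) ^ (U + 1) := div_le_div_of_nonneg_left (by norm_num) (by positivity) a2
    have a4 : (6 : ℝ) / (Real.log X / 8) ^ (U + 1) ≤ 1 / Real.log X ^ U := by
      rw [div_pow, div_div_eq_mul_div, div_le_div_iff₀ (by positivity) (by positivity), one_mul, pow_succ (Real.log X)]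
      calc 6 * 8 ^ (U + 1) * Real.log X ^ U = Real.log X ^ U * (6 * 8 ^ (U + 1)) := by ring
        _ ≤ Real.log X ^ U * Real.log X := mul_le_mul_of_nonneg_left hlog (by positivity)
    linarith
  calc (2 / μ + 4 / (2 * H + 1)) * (X : ℝ) ≤ 1 / Real.log X ^ U * X := mul_le_mul_of_nonneg_right h5 (by positivity)
    _ = X / Real.log X ^ U := by ring

/-- Monic polynomials without root. -/
theorem few_monic (σ : ℤ) (hσ : σ = 1 ∨ σ = -1) : ∀ (m : ℕ)
    (P : (MvPolynomial Unit ℤ)[X]), P.natDegree = m → P.Monic → (∀ a, P.eval a ≠ 0) →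
    Few {n | ∃ a : ℤ, IsRt P (fun _ : Unit => σ * (n : ℤ)) a} := by
  intro m
  induction m using Nat.strong_induction_on with
  | _ m ih =>
    intro P hPm hP hroot
    by_cases h0 : P.natDegree = 0
    · have h1 : P = 1 := eq_one_of_monic_natDegree_zero hP h0
      refine Few.mono Few.empty ?_
      rintro n ⟨a, ha⟩
      unfold IsRt at ha
      rw [h1, Polynomial.map_one, eval_one] at ha
      exact one_ne_zero ha
    · have hnu : ¬ IsUnit P := fun h => h0 (natDegree_eq_zero_of_isUnit h)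
      obtain ⟨Q, hQ, R, hR⟩ := WfDvdMonoid.exists_irreducible_factor hnu hP.ne_zero
      have hlc : Q.leadingCoeff * R.leadingCoeff = 1 := by
        rw [← leadingCoeff_mul, ← hR]
        exact hP
      set Q' := Q * C R.leadingCoeff with hQ'
      set R' := R * C Q.leadingCoeff with hR'
      have hQm : Q'.Monic := by
        unfold Polynomial.Monic
        rw [hQ', leadingCoeff_mul, leadingCoeff_C, hlc]
      have hRm : R'.Monic := by
        unfold Polynomial.Monic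
        rw [hR', leadingCoeff_mul, leadingCoeff_C, mul_comm, hlc]
      have hPQR : P = Q' * R' := by
        rw [hR, hQ', hR']
        have : C R.leadingCoeff * C Q.leadingCoeff = (1 : (MvPolynomial Unit ℤ)[X]) := by
          rw [← C_mul, mul_comm, hlc, C_1]
        calc Q * R = Q * R * (C R.leadingCoeff * C Q.leadingCoeff) := by rw [this, mul_one]
          _ = _ := by ring
      have hQi : Irreducible Q' := by
        have hu : IsUnit (C R.leadingCoeff : (MvPolynomial Unit ℤ)[X]) := by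
          refine Polynomial.isUnit_C.2 ?_
          exact IsUnit.of_mul_eq_one Q.leadingCoeff (by rw [mul_comm]; exact hlc)
        rw [hQ', irreducible_mul_isUnit hu]
        exact hQ
      have hQr : ∀ a, Q'.eval a ≠ 0 := by
        intro a ha
        apply hroot a
        rw [hPQR, eval_mul, ha, zero_mul]
      have hQd : 2 ≤ Q'.natDegree := by
        by_contra hlt
        have h1 : Q'.natDegree = 0 ∨ Q'.natDegree = 1 := by omega
        rcases h1 with h1 | h1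
        · have h2 : Q' = 1 := eq_one_of_monic_natDegree_zero hQm h1
          exact hQi.not_isUnit (by rw [h2]; exact isUnit_one)
        · have h2 := hQm.eq_X_add_C h1
          apply hQr (-(Q'.coeff 0))
          rw [h2]
          simp
      have hdeg : Q'.natDegree + R'.natDegree = P.natDegree := by
        rw [hPQR, hQm.natDegree_mul hRm]
      have n1 := few_irr hQm hQd hQi σ hσ
      have n2 := ih R'.natDegree (by omega) R' rfl hRm (by
        intro a ha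
        apply hroot a
        rw [hPQR, eval_mul, ha, mul_zero])
      refine Few.mono (n1.union n2) ?_
      rintro n ⟨a, ha⟩
      rw [hPQR] at ha
      rcases isRt_mul ha with h | h
      · exact Or.inl ⟨a, h⟩
      · exact Or.inr ⟨a, h⟩

theorem few_int (F : ℤ[X][X]) (hF : F.Monic) (hroot : ∀ g, F.eval g ≠ 0) (σ : ℤ) (hσ : σ = 1 ∨ σ = -1) :
    Few {n : ℕ | ∃ a : ℤ, (F.map (evalRingHom (σ * (n : ℤ)))).eval a = 0} := by
  have h := few_monic σ hσ _ (F.map e1) rfl (hF.map _) (by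
    intro a ha
    obtain ⟨b, rfl⟩ := e1_bij.2 a
    rw [eval_map_apply] at ha
    exact hroot b (e1_bij.1 (by rw [ha, map_zero])))
  refine Few.mono h ?_
  rintro n ⟨a, ha⟩
  refine ⟨a, ?_⟩
  unfold IsRt
  rw [Polynomial.map_map, ev_e1]
  exact ha

open Pool.Agent.U513.AP (FewInt near_int)

lemma one_le_ev (c : ℝ) (U : ℕ) : ∃ X₀ : ℕ, ∀ X : ℕ, X₀ ≤ X → c ≤ (X : ℝ) / Real.log X ^ U := by
  have h1 := ((Real.isLittleO_pow_log_id_atTop (n := U)).bound (show (0 : ℝ) < 1 / (|c| + 1) by positivity))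
  obtain ⟨X₁, h⟩ := eventually_atTop.1 ((tendsto_natCast_atTop_atTop (R := ℝ)).eventually h1)
  refine ⟨max X₁ 3, fun X hX => ?_⟩
  have h2 := h X ((le_max_left _ _).trans hX)
  have hX3 : (3 : ℝ) ≤ X := by exact_mod_cast (le_max_right _ _).trans hX
  have hl : 0 < Real.log X := Real.log_pos (by linarith)
  rw [Real.norm_eq_abs, Real.norm_eq_abs, id, abs_of_pos (by positivity), abs_of_pos (by linarith : (0 : ℝ) < X)] at h2
  rw [le_div_iff₀ (by positivity)]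
  have h3 : (|c| + 1) * Real.log X ^ U ≤ X := by
    calc (|c| + 1) * Real.log X ^ U ≤ (|c| + 1) * (1 / (|c| + 1) * X) := mul_le_mul_of_nonneg_left h2 (by positivity)
      _ = X := by field_simp
  have h4 : c * Real.log X ^ U ≤ (|c| + 1) * Real.log X ^ U :=
    mul_le_mul_of_nonneg_right ((le_abs_self c).trans (by linarith)) (by positivity)
  linarith

lemma fewInt_of {G : ℤ → Prop} (h1 : Few {n : ℕ | ¬ G (1 * (n : ℤ))}) (h2 : Few {n : ℕ | ¬ G (-1 * (n : ℤ))}) : FewInt G := by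
  classical
  intro U
  obtain ⟨X₁, a1⟩ := h1 (U + 1)
  obtain ⟨X₂, a2⟩ := h2 (U + 1)
  obtain ⟨X₃, a3⟩ := log_ge 4
  obtain ⟨X₄, a4⟩ := one_le_ev 2 U
  refine ⟨max (max X₁ X₂) (max X₃ X₄), fun X hX => ?_⟩
  have b1 := a1 X (((le_max_left _ _).trans (le_max_left _ _)).trans hX)
  have b2 := a2 X (((le_max_right _ _).trans (le_max_left _ _)).trans hX)
  have b3 := a3 X (((le_max_left _ _).trans (le_max_right _ _)).trans hX)
  have b4 := a4 X (((le_max_right _ _).trans (le_max_right _ _)).trans hX)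
  have hsub : {k : ℤ | |k| ≤ (X : ℤ) ∧ ¬ G k} ⊆ ({0} ∪ (fun n : ℕ => (n : ℤ)) '' {n : ℕ | n ∈ Finset.Ioc 0 X ∧ n ∈ {n : ℕ | ¬ G (1 * (n : ℤ))}}) ∪
      (fun n : ℕ => -(n : ℤ)) '' {n : ℕ | n ∈ Finset.Ioc 0 X ∧ n ∈ {n : ℕ | ¬ G (-1 * (n : ℤ))}} := by
    rintro k ⟨hk1, hk2⟩
    rcases lt_trichotomy k 0 with hk | hk | hk
    · right
      refine ⟨k.natAbs, ⟨?_, ?_⟩, ?_⟩
      · rw [Finset.mem_Ioc]
        rw [abs_of_neg hk] at hk1
        omega
      · have e : -1 * ((k.natAbs : ℕ) : ℤ) = k := by omega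
        show ¬ G (-1 * ((k.natAbs : ℕ) : ℤ))
        rw [e]
        exact hk2
      · show -((k.natAbs : ℕ) : ℤ) = k
        omega
    · left
      left
      exact hk
    · left
      right
      refine ⟨k.natAbs, ⟨?_, ?_⟩, ?_⟩
      · rw [Finset.mem_Ioc]
        rw [abs_of_pos hk] at hk1
        omega
      · have e : 1 * ((k.natAbs : ℕ) : ℤ) = k := by omega
        show ¬ G (1 * ((k.natAbs : ℕ) : ℤ))
        rw [e]
        exact hk2
      · show ((k.natAbs : ℕ) : ℤ) = k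
        omega
  have f1 := few_fin {n : ℕ | ¬ G (1 * (n : ℤ))} X
  have f2 := few_fin {n : ℕ | ¬ G (-1 * (n : ℤ))} X
  have c1 := Set.ncard_le_ncard hsub (((Set.finite_singleton 0).union (f1.image _)).union (f2.image _))
  have c2 := Set.ncard_union_le ({0} ∪ (fun n : ℕ => (n : ℤ)) '' {n : ℕ | n ∈ Finset.Ioc 0 X ∧ n ∈ {n : ℕ | ¬ G (1 * (n : ℤ))}})
    ((fun n : ℕ => -(n : ℤ)) '' {n : ℕ | n ∈ Finset.Ioc 0 X ∧ n ∈ {n : ℕ | ¬ G (-1 * (n : ℤ))}})
  have c3 := Set.ncard_union_le ({0} : Set ℤ) ((fun n : ℕ => (n : ℤ)) '' {n : ℕ | n ∈ Finset.Ioc 0 X ∧ n ∈ {n : ℕ | ¬ G (1 * (n : ℤ))}})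
  have c4 := Set.ncard_image_le (f := fun n : ℕ => (n : ℤ)) f1
  have c5 := Set.ncard_image_le (f := fun n : ℕ => -(n : ℤ)) f2
  rw [Set.ncard_singleton] at c3
  have c6 : {k : ℤ | |k| ≤ (X : ℤ) ∧ ¬ G k}.ncard ≤ 1 + {n : ℕ | n ∈ Finset.Ioc 0 X ∧ n ∈ {n : ℕ | ¬ G (1 * (n : ℤ))}}.ncard +
      {n : ℕ | n ∈ Finset.Ioc 0 X ∧ n ∈ {n : ℕ | ¬ G (-1 * (n : ℤ))}}.ncard := by omega
  have c7 : (({k : ℤ | |k| ≤ (X : ℤ) ∧ ¬ G k}.ncard : ℕ) : ℝ) ≤ 1 +
      ({n : ℕ | n ∈ Finset.Ioc 0 X ∧ n ∈ {n : ℕ | ¬ G (1 * (n : ℤ))}}.ncard : ℝ) +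
      ({n : ℕ | n ∈ Finset.Ioc 0 X ∧ n ∈ {n : ℕ | ¬ G (-1 * (n : ℤ))}}.ncard : ℝ) := by exact_mod_cast c6
  have hl : 0 < Real.log X := by linarith
  have h6 : (X : ℝ) / Real.log X ^ (U + 1) ≤ X / Real.log X ^ U / 4 := by
    rw [pow_succ, ← div_div]
    exact div_le_div_of_nonneg_left (by positivity) (by norm_num) b3
  linarith

/-- **Few integers are in a thin set of rational numbers.** -/
theorem fewInt_rat (f : ℚ[X][X]) (hf : f.Monic) (hroot : ∀ g, f.eval g ≠ 0) :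
    FewInt fun k : ℤ => ¬ ∃ x : ℚ, f.evalEval (k : ℚ) x = 0 := by
  obtain ⟨F, hF, hFr, h⟩ := rat_to_int f hf hroot
  refine fewInt_of ((few_int F hF hFr 1 (Or.inl rfl)).mono ?_) ((few_int F hF hFr (-1) (Or.inr rfl)).mono ?_)
  · intro n hn
    have hn' : ¬ ¬ ∃ x : ℚ, f.evalEval ((1 * (n : ℤ) : ℤ) : ℚ) x = 0 := hn
    rw [not_not] at hn'
    obtain ⟨x, hx⟩ := hn'
    exact h _ x hx
  · intro n hn
    have hn' : ¬ ¬ ∃ x : ℚ, f.evalEval ((-1 * (n : ℤ) : ℤ) : ℚ) x = 0 := hn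
    rw [not_not] at hn'
    obtain ⟨x, hx⟩ := hn'
    exact h _ x hx

lemma fewInt_ne (m : ℤ) : FewInt fun k : ℤ => k ≠ m := by
  intro U
  obtain ⟨X₀, h⟩ := one_le_ev 1 U
  refine ⟨X₀, fun X hX => le_trans ?_ (h X hX)⟩
  have h1 : {k : ℤ | |k| ≤ (X : ℤ) ∧ ¬ k ≠ m} ⊆ {m} := by
    rintro k ⟨_, hk⟩
    exact not_not.1 hk
  have h2 := Set.ncard_le_ncard h1 (Set.finite_singleton m)
  rw [Set.ncard_singleton] at h2
  exact_mod_cast h2

/-- the countable family of the exceptional sets: the rational thin sets and the single integers -/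
def Good (i : ℚ[X][X] ⊕ ℤ) (k : ℤ) : Prop := Sum.elim
  (fun f : ℚ[X][X] => (f.Monic ∧ ∀ g, f.eval g ≠ 0) → ¬ ∃ x : ℚ, f.evalEval (k : ℚ) x = 0)
  (fun m : ℤ => k ≠ m) i

theorem good_few : ∀ i, FewInt (Good i) := by
  classical
  rintro (f | m)
  · by_cases hf : f.Monic ∧ ∀ g, f.eval g ≠ 0
    · intro U
      obtain ⟨X₀, h⟩ := fewInt_rat f hf.1 hf.2 U
      refine ⟨X₀, fun X hX => le_trans (Nat.cast_le.2 ?_) (h X hX)⟩
      refine Set.ncard_le_ncard ?_ ((Set.finite_Icc (-(X : ℤ)) X).subset fun k hk => abs_le.1 hk.1)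
      rintro k ⟨hk1, hk2⟩
      exact ⟨hk1, fun hcon => hk2 fun _ => hcon⟩
    · exact FewInt.of_true fun k h1 => absurd h1 hf
  · exact fewInt_ne m

/-- the integers in a thin set of a number field are in finitely many sets of the family -/
theorem good_cover {K : Type} [Field K] [NumberField K] {D : Set K} (hD : Thin D) :
    ∃ J : Finset (ℚ[X][X] ⊕ ℤ), ∀ k : ℤ, (∀ i ∈ J, Good i k) → (k : K) ∉ D := by
  classical
  obtain ⟨A, hA, G, hG, hroot, hcov⟩ := hD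
  obtain ⟨Hh, hH, hHr, F, hF, hF'⟩ := nf_to_rat K G hG hroot
  have hA' : {m : ℤ | (m : K) ∈ A}.Finite := hA.preimage Int.cast_injective.injOn
  have hfin : ({m : ℤ | (m : K) ∈ A} ∪ F).Finite := hA'.union hF
  refine ⟨insert (Sum.inl Hh) (hfin.toFinset.image Sum.inr), fun k hk hkD => ?_⟩
  have hm : k ∉ ({m : ℤ | (m : K) ∈ A} ∪ F) := fun hmem =>
    hk (Sum.inr k) (Finset.mem_insert_of_mem (Finset.mem_image_of_mem _ (hfin.mem_toFinset.2 hmem))) rfl
  rcases hcov _ hkD with h | ⟨x, hx⟩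
  · exact hm (Or.inl h)
  · rcases hF' k x hx with h | h
    · exact hm (Or.inr h)
    · exact hk (Sum.inl Hh) (Finset.mem_insert_self _ _) ⟨hH, hHr⟩ h

instance : Countable ℚ[X] := by
  rw [← Cardinal.mk_le_aleph0_iff]
  exact Polynomial.cardinalMk_le_max.trans (by simp)

instance : Countable ℚ[X][X] := by
  rw [← Cardinal.mk_le_aleph0_iff]
  exact Polynomial.cardinalMk_le_max.trans (by simp)

/-- **Integers near integral affine forms at approximations are not in thin sets.** -/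
theorem near_thin {d : ℕ} {τ : ℝ} (hτ : 0 ≤ τ) (γ : Fin d → ℝ) :
    ∃ E : Set (Fin d → ℝ), μH[((d : ℝ) + 1) / (1 + τ)] E = 0 ∧ (1 ≤ d * τ → volume E = 0) ∧
      ∀ α, α ∉ E → ∀ (K : Type) [Field K] [NumberField K] (D : Set K), Thin D →
        ∀ (W : ℕ) (g₀ g : ℤ) (h : Fin d → ℤ), ¬ (g = 0 ∧ h = 0) → ∀ᶠ q : ℕ in atTop,
        ∀ u : Fin d → ℤ, (∀ i, |(q : ℝ) * α i - γ i - u i| ≤ (q : ℝ) ^ (-τ)) →
          ∀ k : ℤ, k ≠ 0 → |(k : ℝ) - (g₀ + g * q + ∑ i, h i * u i : ℤ)| ≤ Real.log q ^ W → (k : K) ∉ D := by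
  obtain ⟨E, e1, e2, e3⟩ := near_int Good good_few hτ γ
  refine ⟨E, e1, e2, fun α hα K _ _ D hD W g₀ g h hgh => ?_⟩
  obtain ⟨J, hJ⟩ := good_cover hD
  filter_upwards [(Finset.eventually_all J).2 fun i _ => e3 α hα i W g₀ g h hgh] with q hq u hu k hk hle
  exact hJ k fun i hi => hq i hi u hu k hk hle

end Pool.Agent.U194.TS
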